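import Pool.Agent.W757.RD.St

set_option autoImplicit false

open Set Metric MeasureTheory Filter

namespace W54.RE

open Pool.Agent.W757.RD (mu rho StMU)

lemma integrable_g {s : ℝ} (h1 : 1 < s) (h2 : s < 2) :
    Integrable (fun z : ℂ => ‖z‖ ^ (-s) * (1 + ‖z‖) ^ (-s)) := by
  have hm : Measurable (fun z : ℂ => ‖z‖ ^ (-s) * (1 + ‖z‖) ^ (-s)) := by fun_prop
  have hfr : Module.finrank ℝ ℂ = 2 := Complex.finrank_real_complex
  have hb : IntegrableOn (fun z : ℂ => ‖z‖ ^ (-s) * (1 + ‖z‖) ^ (-s)) (ball 0 1) := by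
    refine integrableOn_ball_of_norm_le_rpow (C := 1) (α := s) (by rw [hfr]; norm_num)
      (by rw [hfr]; exact_mod_cast h2) (Eventually.of_forall fun z => ?_) hm.aestronglyMeasurable
    rw [Real.norm_of_nonneg (by positivity), one_mul]
    refine mul_le_of_le_one_right (by positivity) ?_
    exact Real.rpow_le_one_of_one_le_of_nonpos (by linarith [norm_nonneg z]) (by linarith)
  have hc : IntegrableOn (fun z : ℂ => ‖z‖ ^ (-s) * (1 + ‖z‖) ^ (-s)) (ball 0 1)ᶜ := by
    have h3 : Integrable (fun z : ℂ => (2 : ℝ) ^ s * (1 + ‖z‖) ^ (-(2 * s))) :=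
      (integrable_one_add_norm (by rw [hfr]; push_cast; linarith)).const_mul _
    refine h3.integrableOn.mono' hm.aestronglyMeasurable ?_
    refine (ae_restrict_iff' measurableSet_ball.compl).mpr (Eventually.of_forall fun z hz => ?_)
    have hz1 : 1 ≤ ‖z‖ := by simpa using hz
    rw [Real.norm_of_nonneg (by positivity)]
    have h4 : ‖z‖ ^ (-s) ≤ (2 : ℝ) ^ s * (1 + ‖z‖) ^ (-s) := by
      have h5 : ((1 + ‖z‖) / 2) ^ s ≤ ‖z‖ ^ s :=
        Real.rpow_le_rpow (by positivity) (by linarith) (by linarith)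
      rw [Real.div_rpow (by positivity) (by norm_num), div_le_iff₀ (by positivity)] at h5
      rw [Real.rpow_neg (by positivity), Real.rpow_neg (by positivity), ← div_eq_mul_inv,
        le_div_iff₀ (by positivity), inv_mul_le_iff₀ (by positivity)]
      exact h5
    calc ‖z‖ ^ (-s) * (1 + ‖z‖) ^ (-s) ≤ ((2 : ℝ) ^ s * (1 + ‖z‖) ^ (-s)) * (1 + ‖z‖) ^ (-s) :=
          mul_le_mul_of_nonneg_right h4 (by positivity)
      _ = (2 : ℝ) ^ s * (1 + ‖z‖) ^ (-(2 * s)) := by
          rw [mul_assoc, ← Real.rpow_add (by positivity)]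
          congr 2
          ring
  have := hb.union hc
  rwa [union_compl_self, integrableOn_univ] at this

lemma measurable_rho (β : ℝ) : Measurable (rho β) := by
  unfold rho
  fun_prop

lemma rho_le {β : ℝ} (h1 : 1 / 2 < β) (z : ℂ) :
    rho β z ≤ (3 : ℝ) ^ (2 * β) * (‖z‖ ^ (-(2 * β)) * (1 + ‖z‖) ^ (-(2 * β)) +
      ‖z - 1‖ ^ (-(2 * β)) * (1 + ‖z - 1‖) ^ (-(2 * β))) := by
  have key : ∀ u v : ℂ, 1 ≤ ‖u‖ + ‖v‖ → ‖u‖ ≤ ‖v‖ →
      ‖v‖ ^ (-(2 * β)) ≤ (3 : ℝ) ^ (2 * β) * (1 + ‖u‖) ^ (-(2 * β)) := by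
    intro u v h h'
    have hv : 0 < ‖v‖ := by linarith [norm_nonneg u]
    have h5 : ((1 + ‖u‖) / 3) ^ (2 * β) ≤ ‖v‖ ^ (2 * β) :=
      Real.rpow_le_rpow (by positivity) (by linarith) (by linarith)
    rw [Real.div_rpow (by positivity) (by norm_num), div_le_iff₀ (by positivity)] at h5
    rw [Real.rpow_neg (by positivity), Real.rpow_neg (by positivity), ← div_eq_mul_inv,
      le_div_iff₀ (by positivity), inv_mul_le_iff₀ (by positivity)]
    exact h5
  have hs : 1 ≤ ‖z‖ + ‖z - 1‖ := by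
    have := norm_sub_le z (z - 1)
    simpa using this
  unfold rho
  have p1 : 0 ≤ ‖z - 1‖ ^ (-(2 * β)) * (1 + ‖z - 1‖) ^ (-(2 * β)) := by positivity
  have p2 : 0 ≤ ‖z‖ ^ (-(2 * β)) * (1 + ‖z‖) ^ (-(2 * β)) := by positivity
  have p3 : (0 : ℝ) ≤ 3 ^ (2 * β) := by positivity
  rcases le_total ‖z‖ ‖z - 1‖ with h | h
  · have := mul_le_mul_of_nonneg_left (key z (z - 1) hs h) (a := ‖z‖ ^ (-(2 * β))) (by positivity)
    nlinarith [mul_nonneg p3 p1]
  · have := mul_le_mul_of_nonneg_left (key (z - 1) z (by linarith) h)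
      (a := ‖z - 1‖ ^ (-(2 * β))) (by positivity)
    nlinarith [mul_nonneg p3 p2]

lemma integrable_rho {β : ℝ} (h1 : 1 / 2 < β) (h2 : β < 1) : Integrable (rho β) := by
  have hg := integrable_g (s := 2 * β) (by linarith) (by linarith)
  have hg1 := hg.comp_sub_right 1
  refine ((hg.add hg1).const_mul ((3 : ℝ) ^ (2 * β))).mono' (measurable_rho β).aestronglyMeasurable
    (Eventually.of_forall fun z => ?_)
  rw [Real.norm_of_nonneg (by unfold rho; positivity)]
  exact rho_le h1 z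

theorem taskMU : StMU := by
  intro β h1 h2
  have hm : Measurable (fun z => ENNReal.ofReal (rho β z)) := (measurable_rho β).ennreal_ofReal
  refine ⟨?_, fun E => ⟨fun h => ?_, fun h => ?_⟩⟩
  · unfold mu
    rw [withDensity_apply _ MeasurableSet.univ, Measure.restrict_univ]
    exact (integrable_rho h1 h2).lintegral_lt_top
  · exact withDensity_absolutelyContinuous _ _ h
  · refine withDensity_absolutelyContinuous' hm.aemeasurable ?_ h
    have h0 : ∀ᵐ z : ℂ, z ≠ 0 := by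
      rw [ae_iff]; simp
    have h0' : ∀ᵐ z : ℂ, z ≠ 1 := by
      rw [ae_iff]; simp
    filter_upwards [h0, h0'] with z hz hz'
    have : 0 < ‖z‖ := norm_pos_iff.mpr hz
    have : 0 < ‖z - 1‖ := norm_pos_iff.mpr (sub_ne_zero.mpr hz')
    rw [ne_eq, ENNReal.ofReal_eq_zero, not_le]
    unfold rho
    positivity

end W54.RE
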