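import Pool.Agent.W757.RD.StN
import Pool.Agent.W54.RE.MU
import Pool.Agent.H790R3.RB.TSP
import Pool.Agent.H790R3.RB.TTOP

set_option autoImplicit false

open Set Metric MeasureTheory Filter
open scoped OnePoint ENNReal

namespace W54.RE

open Pool.Agent.W757.RD (mu rho StMU StNA sar mb)
open Pool.Agent.H790R3.RB (pr hc cr)

theorem det_smul_one (c : ℂ) : (c • (1 : ℂ →L[ℝ] ℂ)).det = ‖c‖ ^ 2 := by
  have h1 : ((c • (1 : ℂ →L[ℝ] ℂ) : ℂ →L[ℝ] ℂ) : ℂ →ₗ[ℝ] ℂ) = Algebra.lmul ℝ ℂ c := by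
    ext
    simp
  rw [ContinuousLinearMap.det, h1, ← Algebra.norm_apply, Algebra.norm_complex_apply,
    Complex.normSq_eq_norm_sq]

/-- change of variables for Möbius maps -/
theorem cov (α β γ δ : ℂ) {A : Set ℂ} (hA : MeasurableSet A) (h0 : ∀ z ∈ A, γ * z + δ ≠ 0)
    (hi : InjOn (fun z : ℂ => (α * z + β) / (γ * z + δ)) A) (G : ℂ → ℝ≥0∞) :
    ∫⁻ w in (fun z : ℂ => (α * z + β) / (γ * z + δ)) '' A, G w =
      ∫⁻ z in A, ENNReal.ofReal (‖(α * δ - β * γ) / (γ * z + δ) ^ 2‖ ^ 2) *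
        G ((α * z + β) / (γ * z + δ)) := by
  have hd : ∀ z ∈ A, HasFDerivWithinAt (fun z : ℂ => (α * z + β) / (γ * z + δ))
      (((α * δ - β * γ) / (γ * z + δ) ^ 2) • (1 : ℂ →L[ℝ] ℂ)) A z := by
    intro z hz
    have h1 : HasDerivAt (fun z : ℂ => α * z + β) α z := by
      simpa using ((hasDerivAt_id z).const_mul α).add_const β
    have h2 : HasDerivAt (fun z : ℂ => γ * z + δ) γ z := by
      simpa using ((hasDerivAt_id z).const_mul γ).add_const δ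
    have h3 := h1.div h2 (h0 z hz)
    have h4 : (α * (γ * z + δ) - (α * z + β) * γ) / (γ * z + δ) ^ 2 =
        (α * δ - β * γ) / (γ * z + δ) ^ 2 := by
      congr 1
      ring
    rw [h4] at h3
    exact h3.complexToReal_fderiv.hasFDerivWithinAt
  rw [lintegral_image_eq_lintegral_abs_det_fderiv_mul volume hA hd hi G]
  refine lintegral_congr fun z => ?_
  rw [det_smul_one, abs_of_nonneg (by positivity)]

lemma lint_ball {p : ℝ} (hp : -2 < p) : ∃ C : ℝ, 0 < C ∧ ∀ r : ℝ, 0 < r →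
    ∫⁻ w in ball (0 : ℂ) r, ENNReal.ofReal (‖w‖ ^ p) ≤ ENNReal.ofReal (C * r ^ (p + 2)) := by
  have hfr : Module.finrank ℝ ℂ = 2 := Complex.finrank_real_complex
  have hI : IntegrableOn (fun z : ℂ => ‖z‖ ^ p) (ball 0 1) := by
    have hm : Measurable (fun z : ℂ => ‖z‖ ^ p) := by fun_prop
    refine integrableOn_ball_of_norm_le_rpow (C := 1) (α := -p) (by rw [hfr]; norm_num)
      (by rw [hfr]; push_cast; linarith) (Eventually.of_forall fun z => ?_) hm.aestronglyMeasurable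
    rw [Real.norm_of_nonneg (by positivity), one_mul, neg_neg]
  have hfin : ∫⁻ w in ball (0 : ℂ) 1, ENNReal.ofReal (‖w‖ ^ p) < ⊤ := hI.lintegral_lt_top
  refine ⟨(∫⁻ w in ball (0 : ℂ) 1, ENNReal.ofReal (‖w‖ ^ p)).toReal + 1, by positivity,
    fun r hr => ?_⟩
  have himg : (fun z : ℂ => (((r : ℝ) : ℂ) * z + 0) / (0 * z + 1)) '' ball (0 : ℂ) 1 =
      ball (0 : ℂ) r := by
    ext w
    simp only [mem_image, mem_ball_zero_iff]
    constructor
    · rintro ⟨z, hz, rfl⟩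
      simp only [add_zero, zero_mul, zero_add, div_one, norm_mul, Complex.norm_real,
        Real.norm_of_nonneg hr.le]
      nlinarith
    · intro hw
      refine ⟨w / r, ?_, ?_⟩
      · rw [norm_div, Complex.norm_real, Real.norm_of_nonneg hr.le, div_lt_one hr]
        exact hw
      · have : (r : ℂ) ≠ 0 := by exact_mod_cast hr.ne'
        rw [add_zero, zero_mul, zero_add, div_one, mul_div_cancel₀ _ this]
  have hr0 : (r : ℂ) ≠ 0 := by exact_mod_cast hr.ne'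
  rw [← himg, cov (r : ℂ) 0 0 1 measurableSet_ball (fun z _ => by simp) (by
    intro x _ y _ hxy
    simpa [hr0] using hxy)]
  have h1 : ∀ z : ℂ, ENNReal.ofReal (‖((r : ℂ) * 1 - 0 * 0) / (0 * z + 1) ^ 2‖ ^ 2) *
      ENNReal.ofReal (‖((r : ℂ) * z + 0) / (0 * z + 1)‖ ^ p) =
      ENNReal.ofReal (r ^ (p + 2)) * ENNReal.ofReal (‖z‖ ^ p) := by
    intro z
    rw [← ENNReal.ofReal_mul (by positivity), ← ENNReal.ofReal_mul (by positivity)]
    congr 1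
    simp only [mul_one, mul_zero, sub_zero, zero_mul, zero_add, one_pow, div_one, add_zero,
      norm_mul, Complex.norm_real, Real.norm_of_nonneg hr.le]
    rw [Real.mul_rpow hr.le (norm_nonneg z), Real.rpow_add hr, ← mul_assoc]
    congr 1
    rw [mul_comm]
    norm_num
  simp only [h1]
  rw [lintegral_const_mul' _ _ ENNReal.ofReal_ne_top, mul_comm, ENNReal.ofReal_mul (by positivity)]
  gcongr
  refine (ENNReal.ofReal_toReal hfin.ne).symm.le.trans ?_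
  exact ENNReal.ofReal_le_ofReal (by linarith)

/-- averages of the kernel -/
lemma avg {s : ℝ} (hs0 : 0 < s) (hs : s < 2) (b : ℂ) {r : ℝ} (hr1 : r ≤ 1) :
    ∃ C : ℝ, 0 < C ∧ ∀ z : ℂ, ∫⁻ a in ball b r, ENNReal.ofReal (‖z - a‖ ^ (-s)) ≤
      ENNReal.ofReal (C * (1 + ‖z‖) ^ (-s)) := by
  obtain ⟨C₁, hC₁, hball⟩ := lint_ball (p := -s) (by linarith)
  set R := ‖b‖ + 1 with hR
  have hRpos : 0 < R := by positivity
  have hR1 : 1 ≤ R := by rw [hR]; linarith [norm_nonneg b]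
  have hvol : volume (ball b r) < ⊤ := measure_ball_lt_top
  set v := (volume (ball b r)).toReal with hv
  refine ⟨C₁ * (3 * R) ^ (-s + 2) * (1 + 2 * R) ^ s + 4 ^ s * v, by positivity, fun z => ?_⟩
  have hab : ∀ a ∈ ball b r, ‖a‖ ≤ R := by
    intro a ha
    have h1 : ‖a‖ ≤ ‖a - b‖ + ‖b‖ := by simpa using norm_add_le (a - b) b
    rw [mem_ball, dist_eq_norm] at ha
    rw [hR]
    linarith
  have hz0 := norm_nonneg z
  rcases le_or_gt ‖z‖ (2 * R) with hz | hz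
  · have himg : (fun u : ℂ => ((1 : ℂ) * u + z) / (0 * u + 1)) '' ball (0 : ℂ) (3 * R) =
        ball z (3 * R) := by
      ext w
      simp only [mem_image, mem_ball, dist_eq_norm, sub_zero]
      constructor
      · rintro ⟨u, hu, rfl⟩
        simpa using hu
      · intro hw
        exact ⟨w - z, hw, by simp⟩
    have h1 : ∫⁻ a in ball b r, ENNReal.ofReal (‖z - a‖ ^ (-s)) ≤
        ∫⁻ a in ball z (3 * R), ENNReal.ofReal (‖z - a‖ ^ (-s)) := by
      refine lintegral_mono_set fun a ha => ?_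
      rw [mem_ball, dist_eq_norm]
      have h1 := hab a ha
      have h2 := norm_sub_le a z
      have h3 : ‖a‖ < R := by
        rw [mem_ball, dist_eq_norm] at ha
        have h1 : ‖a‖ ≤ ‖a - b‖ + ‖b‖ := by simpa using norm_add_le (a - b) b
        rw [hR]
        linarith
      linarith
    refine h1.trans ?_
    rw [← himg, cov 1 z 0 1 measurableSet_ball (fun u _ => by simp) (by
      intro x _ y _ hxy
      simpa using hxy)]
    have h2 : ∀ u : ℂ, ENNReal.ofReal (‖((1 : ℂ) * 1 - z * 0) / (0 * u + 1) ^ 2‖ ^ 2) *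
        ENNReal.ofReal (‖z - ((1 : ℂ) * u + z) / (0 * u + 1)‖ ^ (-s)) =
        ENNReal.ofReal (‖u‖ ^ (-s)) := by
      intro u
      have : z - ((1 : ℂ) * u + z) / (0 * u + 1) = -u := by simp
      rw [this, norm_neg]
      simp
    simp only [h2]
    refine (hball (3 * R) (by positivity)).trans (ENNReal.ofReal_le_ofReal ?_)
    have h3 : 1 ≤ (1 + 2 * R) ^ s * (1 + ‖z‖) ^ (-s) := by
      rw [Real.rpow_neg (by positivity), ← div_eq_mul_inv, one_le_div (by positivity)]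
      exact Real.rpow_le_rpow (by positivity) (by linarith) hs0.le
    have h4 : 0 ≤ 4 ^ s * v * (1 + ‖z‖) ^ (-s) := by positivity
    have h5 : 0 < C₁ * (3 * R) ^ (-s + 2) := by positivity
    nlinarith
  · have h1 : ∫⁻ a in ball b r, ENNReal.ofReal (‖z - a‖ ^ (-s)) ≤
        ∫⁻ _ in ball b r, ENNReal.ofReal (4 ^ s * (1 + ‖z‖) ^ (-s)) := by
      refine setLIntegral_mono' measurableSet_ball fun a ha => ENNReal.ofReal_le_ofReal ?_
      have h2 := hab a ha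
      have h3 : ‖z‖ ≤ ‖z - a‖ + ‖a‖ := by simpa using norm_add_le (z - a) a
      have h4 : (1 + ‖z‖) / 4 ≤ ‖z - a‖ := by linarith
      have h5 : ((1 + ‖z‖) / 4) ^ s ≤ ‖z - a‖ ^ s :=
        Real.rpow_le_rpow (by positivity) h4 hs0.le
      have h6 : 0 < ‖z - a‖ := lt_of_lt_of_le (by positivity) h4
      rw [Real.div_rpow (by positivity) (by norm_num), div_le_iff₀ (by positivity)] at h5
      rw [Real.rpow_neg (by positivity), Real.rpow_neg (by positivity), ← div_eq_mul_inv,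
        le_div_iff₀ (by positivity), inv_mul_le_iff₀ (by positivity)]
      exact h5
    refine h1.trans ?_
    rw [setLIntegral_const, ← ENNReal.ofReal_toReal hvol.ne, ← hv,
      ← ENNReal.ofReal_mul (by positivity)]
    refine ENNReal.ofReal_le_ofReal ?_
    have h4 : 0 ≤ C₁ * (3 * R) ^ (-s + 2) * (1 + 2 * R) ^ s * (1 + ‖z‖) ^ (-s) := by positivity
    nlinarith

/-- the integral of the singular kernel, by a rotation of the sphere -/
lemma sing {s : ℝ} (hs1 : 1 < s) (hs2 : s < 2) : ∃ C : ℝ, 0 < C ∧ ∀ (Q₁ Q₂ : ℂ),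
    ‖Q₁‖ ^ 2 + ‖Q₂‖ ^ 2 = 1 → ∀ E : Set ℂ, MeasurableSet E → ∀ a : ℝ, 0 < a → a ≤ 1 →
    sar E ≤ ENNReal.ofReal a →
    ∫⁻ z in E, ENNReal.ofReal ((1 + ‖z‖) ^ (-(2 * s)) * ‖z * Q₂ - Q₁‖ ^ (2 * s - 4)) ≤
      ENNReal.ofReal (C * a ^ (s - 1)) := by
  obtain ⟨C₁, hC₁, hball⟩ := lint_ball (p := 2 * s - 4) (by linarith)
  refine ⟨2 ^ (2 - s) + C₁, by positivity, fun Q₁ Q₂ hQ E hE a ha ha1 hEa => ?_⟩
  -- the pointwise kernel on the sphere
  have hK : ∀ w : ℂ, ENNReal.ofReal ((1 + ‖w‖ ^ 2) ^ (-s) * ‖w‖ ^ (2 * s - 4)) ≤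
      ENNReal.ofReal ((2 / a) ^ (2 - s)) * ENNReal.ofReal (1 / (1 + ‖w‖ ^ 2) ^ 2) +
      (ball (0 : ℂ) (Real.sqrt a)).indicator (fun w => ENNReal.ofReal (‖w‖ ^ (2 * s - 4))) w := by
    intro w
    rcases lt_or_ge ‖w‖ (Real.sqrt a) with h | h
    · rw [indicator_of_mem (by simpa using h)]
      refine le_trans ?_ le_add_self
      refine ENNReal.ofReal_le_ofReal ?_
      refine mul_le_of_le_one_left (by positivity) ?_
      exact Real.rpow_le_one_of_one_le_of_nonpos (by nlinarith [sq_nonneg ‖w‖]) (by linarith)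
    · refine le_trans ?_ le_self_add
      rw [← ENNReal.ofReal_mul (by positivity)]
      refine ENNReal.ofReal_le_ofReal ?_
      have hsq : 0 < Real.sqrt a := Real.sqrt_pos.mpr ha
      have hw : 0 < ‖w‖ := lt_of_lt_of_le hsq h
      have haw : a ≤ ‖w‖ ^ 2 := by
        have := Real.sq_sqrt ha.le
        nlinarith
      have e1 : (1 + ‖w‖ ^ 2) ^ (-s) * ‖w‖ ^ (2 * s - 4) =
          ((1 + ‖w‖ ^ 2) / ‖w‖ ^ 2) ^ (2 - s) * (1 / (1 + ‖w‖ ^ 2) ^ 2) := by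
        rw [Real.div_rpow (by positivity) (by positivity)]
        have e2 : (‖w‖ ^ 2) ^ (2 - s) = ‖w‖ ^ (-(2 * s - 4)) := by
          rw [← Real.rpow_natCast ‖w‖ 2, ← Real.rpow_mul hw.le]
          congr 1
          push_cast
          ring
        have e3 : (1 + ‖w‖ ^ 2) ^ (2 - s) = (1 + ‖w‖ ^ 2) ^ (-s) * (1 + ‖w‖ ^ 2) ^ 2 := by
          rw [← Real.rpow_natCast (1 + ‖w‖ ^ 2) 2, ← Real.rpow_add (by positivity)]
          congr 1
          push_cast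
          ring
        rw [e2, e3, Real.rpow_neg hw.le]
        field_simp
      rw [e1]
      refine mul_le_mul_of_nonneg_right ?_ (by positivity)
      refine Real.rpow_le_rpow (by positivity) ?_ (by linarith)
      rw [div_le_div_iff₀ (by positivity) ha]
      nlinarith
  set A : Set ℂ := {z ∈ E | (starRingEnd ℂ) Q₁ * z + (starRingEnd ℂ) Q₂ ≠ 0} with hA
  have hAm : MeasurableSet A := by
    refine hE.inter ?_
    have : IsOpen {z : ℂ | (starRingEnd ℂ) Q₁ * z + (starRingEnd ℂ) Q₂ ≠ 0} :=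
      isOpen_ne_fun (by fun_prop) (by fun_prop)
    exact this.measurableSet
  have hQ' : (starRingEnd ℂ) Q₁ * Q₁ + (starRingEnd ℂ) Q₂ * Q₂ = 1 := by
    rw [Complex.conj_mul', Complex.conj_mul']
    exact_mod_cast hQ
  have hid : ∀ z : ℂ, ‖z * Q₂ - Q₁‖ ^ 2 + ‖(starRingEnd ℂ) Q₁ * z + (starRingEnd ℂ) Q₂‖ ^ 2 =
      1 + ‖z‖ ^ 2 := by
    intro z
    have : ((‖z * Q₂ - Q₁‖ ^ 2 + ‖(starRingEnd ℂ) Q₁ * z + (starRingEnd ℂ) Q₂‖ ^ 2 : ℝ) : ℂ) =
        ((1 + ‖z‖ ^ 2 : ℝ) : ℂ) := by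
      push_cast
      rw [← Complex.conj_mul', ← Complex.conj_mul', ← Complex.conj_mul']
      simp only [map_sub, map_mul, map_add, Complex.conj_conj]
      linear_combination (1 + (starRingEnd ℂ) z * z) * hQ'
    exact_mod_cast this
  have hAE : (A : Set ℂ) =ᵐ[volume] E := by
    have hsub : A ≤ E := fun z hz => hz.1
    refine hsub.eventuallyLE.antisymm ?_
    rw [ae_le_set]
    refine measure_mono_null (t := {z : ℂ | (starRingEnd ℂ) Q₁ * z + (starRingEnd ℂ) Q₂ = 0})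
      ?_ ?_
    · intro z hz
      by_contra h
      exact hz.2 ⟨hz.1, h⟩
    · refine Set.Subsingleton.measure_zero ?_ _
      intro x hx y hy
      have hx' : (starRingEnd ℂ) Q₁ * x + (starRingEnd ℂ) Q₂ = 0 := hx
      have hy' : (starRingEnd ℂ) Q₁ * y + (starRingEnd ℂ) Q₂ = 0 := hy
      have h1 : (starRingEnd ℂ) Q₁ * (x - y) = 0 := by linear_combination hx' - hy'
      rcases mul_eq_zero.mp h1 with h2 | h2
      · rw [h2, zero_mul, zero_add] at hx'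
        rw [h2, hx'] at hQ'
        simp at hQ'
      · exact sub_eq_zero.mp h2
  set M : ℂ → ℂ := fun z => (Q₂ * z + (-Q₁)) / ((starRingEnd ℂ) Q₁ * z + (starRingEnd ℂ) Q₂)
    with hM
  have hdet : Q₂ * (starRingEnd ℂ) Q₂ - (-Q₁) * (starRingEnd ℂ) Q₁ = 1 := by
    linear_combination hQ'
  have hinj : InjOn M A := by
    intro x hx y hy hxy
    simp only [hM] at hxy
    rw [div_eq_div_iff hx.2 hy.2] at hxy
    linear_combination hxy - (x - y) * hdet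
  have hcov := cov Q₂ (-Q₁) ((starRingEnd ℂ) Q₁) ((starRingEnd ℂ) Q₂) hAm (fun z hz => hz.2) hinj
  -- the area of the image
  have harea : sar (M '' A) ≤ ENNReal.ofReal a := by
    refine le_trans (le_of_eq ?_) ((lintegral_mono_set (fun z hz => hz.1) : sar A ≤ sar E).trans hEa)
    unfold sar
    rw [hcov]
    refine setLIntegral_congr_fun hAm fun z hz => ?_
    have hd : 0 < ‖(starRingEnd ℂ) Q₁ * z + (starRingEnd ℂ) Q₂‖ := norm_pos_iff.mpr hz.2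
    rw [hdet, ← ENNReal.ofReal_mul (by positivity)]
    congr 1
    have hn : ‖Q₂ * z + -Q₁‖ = ‖z * Q₂ - Q₁‖ := by
      congr 1
      ring
    rw [norm_div, norm_div, norm_pow, norm_one, hn]
    have h1 := hid z
    have h2 : 0 < 1 + ‖z‖ ^ 2 := by positivity
    have h3 : 1 + (‖z * Q₂ - Q₁‖ / ‖(starRingEnd ℂ) Q₁ * z + (starRingEnd ℂ) Q₂‖) ^ 2 =
        (1 + ‖z‖ ^ 2) / ‖(starRingEnd ℂ) Q₁ * z + (starRingEnd ℂ) Q₂‖ ^ 2 := by
      rw [div_pow, eq_div_iff (pow_ne_zero 2 hd.ne'), add_mul, one_mul,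
        div_mul_cancel₀ _ (pow_ne_zero 2 hd.ne'), ← h1]
      ring
    rw [h3]
    field_simp
  have step1 : ∫⁻ z in E, ENNReal.ofReal ((1 + ‖z‖) ^ (-(2 * s)) * ‖z * Q₂ - Q₁‖ ^ (2 * s - 4)) ≤
      ∫⁻ w in M '' A, ENNReal.ofReal ((1 + ‖w‖ ^ 2) ^ (-s) * ‖w‖ ^ (2 * s - 4)) := by
    rw [← setLIntegral_congr hAE, hcov]
    refine setLIntegral_mono' hAm fun z hz => ?_
    have hd : 0 < ‖(starRingEnd ℂ) Q₁ * z + (starRingEnd ℂ) Q₂‖ := norm_pos_iff.mpr hz.2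
    rw [hdet, ← ENNReal.ofReal_mul (by positivity)]
    refine ENNReal.ofReal_le_ofReal ?_
    have hn : ‖Q₂ * z + -Q₁‖ = ‖z * Q₂ - Q₁‖ := by
      congr 1
      ring
    rw [norm_div, norm_div, norm_pow, norm_one, hn]
    have h1 := hid z
    have h2 : 0 < 1 + ‖z‖ ^ 2 := by positivity
    have h3 : 1 + (‖z * Q₂ - Q₁‖ / ‖(starRingEnd ℂ) Q₁ * z + (starRingEnd ℂ) Q₂‖) ^ 2 =
        (1 + ‖z‖ ^ 2) / ‖(starRingEnd ℂ) Q₁ * z + (starRingEnd ℂ) Q₂‖ ^ 2 := by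
      rw [div_pow, eq_div_iff (pow_ne_zero 2 hd.ne'), add_mul, one_mul,
        div_mul_cancel₀ _ (pow_ne_zero 2 hd.ne'), ← h1]
      ring
    rw [h3]
    set D := ‖(starRingEnd ℂ) Q₁ * z + (starRingEnd ℂ) Q₂‖ with hD
    set N := ‖z * Q₂ - Q₁‖ with hN
    have hN0 : 0 ≤ N := norm_nonneg _
    have e1 : ((1 + ‖z‖ ^ 2) / D ^ 2) ^ (-s) = (1 + ‖z‖ ^ 2) ^ (-s) * D ^ (2 * s) := by
      rw [Real.div_rpow (by positivity) (by positivity), ← Real.rpow_natCast D 2,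
        ← Real.rpow_mul hd.le, div_eq_mul_inv, ← Real.rpow_neg hd.le]
      congr 2
      push_cast
      ring
    have e2 : (N / D) ^ (2 * s - 4) = N ^ (2 * s - 4) * D ^ (-(2 * s - 4)) := by
      rw [Real.div_rpow hN0 hd.le, div_eq_mul_inv, ← Real.rpow_neg hd.le]
    have e3 : D ^ (2 * s) * D ^ (-(2 * s - 4)) = D ^ 4 := by
      rw [← Real.rpow_add hd, ← Real.rpow_natCast D 4]
      congr 1
      push_cast
      ring
    have e4 : (1 / D ^ 2) ^ 2 * (((1 + ‖z‖ ^ 2) / D ^ 2) ^ (-s) * (N / D) ^ (2 * s - 4)) =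
        (1 + ‖z‖ ^ 2) ^ (-s) * N ^ (2 * s - 4) := by
      rw [e1, e2]
      calc _ = (1 / D ^ 2) ^ 2 * ((1 + ‖z‖ ^ 2) ^ (-s) * N ^ (2 * s - 4) *
            (D ^ (2 * s) * D ^ (-(2 * s - 4)))) := by ring
        _ = _ := by
          rw [e3]
          field_simp
    rw [e4]
    refine mul_le_mul_of_nonneg_right ?_ (by positivity)
    have e5 : (1 + ‖z‖) ^ (-(2 * s)) = ((1 + ‖z‖) ^ 2) ^ (-s) := by
      rw [← Real.rpow_natCast (1 + ‖z‖) 2, ← Real.rpow_mul (by positivity)]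
      congr 1
      push_cast
      ring
    rw [e5]
    exact Real.rpow_le_rpow_of_nonpos h2 (by nlinarith [norm_nonneg z]) (by linarith)
  refine step1.trans ?_
  have step2 : ∫⁻ w in M '' A, ENNReal.ofReal ((1 + ‖w‖ ^ 2) ^ (-s) * ‖w‖ ^ (2 * s - 4)) ≤
      ENNReal.ofReal ((2 / a) ^ (2 - s)) * ENNReal.ofReal a +
        ENNReal.ofReal (C₁ * Real.sqrt a ^ (2 * s - 4 + 2)) := by
    refine (lintegral_mono fun w => hK w).trans ?_
    rw [lintegral_add_left (by fun_prop), lintegral_const_mul' _ _ ENNReal.ofReal_ne_top]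
    refine add_le_add (mul_le_mul' le_rfl harea) ?_
    refine (setLIntegral_le_lintegral _ _).trans ?_
    rw [lintegral_indicator measurableSet_ball]
    exact hball _ (Real.sqrt_pos.mpr ha)
  refine step2.trans ?_
  rw [← ENNReal.ofReal_mul (by positivity), ← ENNReal.ofReal_add (by positivity) (by positivity)]
  refine ENNReal.ofReal_le_ofReal (le_of_eq ?_)
  have e1 : (2 / a) ^ (2 - s) * a = 2 ^ (2 - s) * a ^ (s - 1) := by
    rw [Real.div_rpow (by norm_num) ha.le, div_mul_eq_mul_div, div_eq_iff (by positivity),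
      mul_assoc, ← Real.rpow_add ha]
    congr 1
    rw [show s - 1 + (2 - s) = 1 by ring, Real.rpow_one]
  have e2 : Real.sqrt a ^ (2 * s - 4 + 2) = a ^ (s - 1) := by
    rw [Real.sqrt_eq_rpow, ← Real.rpow_mul ha.le]
    congr 1
    ring
  rw [e1, e2]
  ring

lemma exists_smul {p q : ℂ × ℂ} (hp : p ≠ 0) (hq : q ≠ 0) (h : cr p q = 0) :
    ∃ t : ℂ, t ≠ 0 ∧ q = t • p := by
  unfold cr at h
  by_cases h2 : p.2 = 0
  · have h1 : p.1 ≠ 0 := fun h1 => hp (Prod.ext h1 h2)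
    rw [h2, zero_mul, sub_zero] at h
    have h3 : q.2 = 0 := (mul_eq_zero.mp h).resolve_left h1
    have h4 : q.1 ≠ 0 := fun h4 => hq (Prod.ext h4 h3)
    refine ⟨q.1 / p.1, div_ne_zero h4 h1, Prod.ext ?_ ?_⟩
    · simp [div_mul_cancel₀ _ h1]
    · simp [h2, h3]
  · have h3 : q.1 = q.2 / p.2 * p.1 := by
      field_simp
      linear_combination -h
    have h4 : q.2 ≠ 0 := by
      intro h4
      rw [h4, zero_div, zero_mul] at h3
      exact hq (Prod.ext h3 h4)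
    refine ⟨q.2 / p.2, div_ne_zero h4 h2, Prod.ext ?_ ?_⟩
    · simpa using h3
    · simp [div_mul_cancel₀ _ h2]

lemma mb_smul (a₁ a₂ t : ℂ) (Q p : ℂ × ℂ) : mb a₁ a₂ (t • Q) p = t • mb a₁ a₂ Q p := by
  unfold mb cr
  refine Prod.ext ?_ ?_
  · simp
    ring
  · simp
    ring

/-- selection of a good point -/
lemma sel {v : ℝ} (hv : 0 < v) {B E : Set ℂ} (hE : MeasurableSet E)
    (hBv : volume B = ENNReal.ofReal v) (hBE : volume (B ∩ E) ≤ ENNReal.ofReal (v / 2))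
    (f : ℂ → ℝ≥0∞) (hf : Measurable f) :
    ∃ a ∈ B, a ∉ E ∧ f a ≤ ENNReal.ofReal (2 / v) * ∫⁻ x in B, f x := by
  have h1 : ENNReal.ofReal (v / 2) ≤ volume (B \ E) := by
    have h2 : volume B ≤ volume (B ∩ E) + volume (B \ E) := (measure_inter_add_sdiff B hE).ge
    rw [hBv] at h2
    have h3 : ENNReal.ofReal v = ENNReal.ofReal (v / 2) + ENNReal.ofReal (v / 2) := by
      rw [← ENNReal.ofReal_add (by positivity) (by positivity)]
      congr 1
      ring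
    rw [h3] at h2
    have h4 := h2.trans (add_le_add hBE le_rfl)
    exact (ENNReal.add_le_add_iff_left ENNReal.ofReal_ne_top).mp h4
  have h5 : volume (B \ E) ≠ 0 := by
    intro h
    rw [h] at h1
    have := ENNReal.ofReal_pos.mpr (half_pos hv)
    exact absurd h1 (not_le.mpr this)
  have h6 : volume (B \ E) ≠ ⊤ := by
    refine ne_top_of_le_ne_top ?_ (measure_mono sdiff_subset : volume (B \ E) ≤ volume B)
    rw [hBv]
    exact ENNReal.ofReal_ne_top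
  obtain ⟨a, ha, hfa⟩ := exists_le_setLAverage h5 h6 (f := f) hf.aemeasurable
  refine ⟨a, ha.1, ha.2, hfa.trans ?_⟩
  rw [setLAverage_eq, ENNReal.div_eq_inv_mul]
  refine mul_le_mul' ?_ (lintegral_mono_set sdiff_subset)
  have h7 : ENNReal.ofReal (2 / v) = (ENNReal.ofReal (v / 2))⁻¹ := by
    rw [← ENNReal.ofReal_inv_of_pos (by positivity)]
    congr 1
    field_simp
  rw [h7]
  exact ENNReal.inv_le_inv.mpr h1

/-- the area of the image -/
lemma area {s R : ℝ} (h1 : 1 < s) (h2 : s < 2) (hR : 1 ≤ R) {a₁ a₂ : ℂ} (ha₁ : ‖a₁‖ ≤ R)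
    (ha₂ : ‖a₂‖ ≤ R) {Q₁ Q₂ : ℂ} (hQ : ‖Q₁‖ ^ 2 + ‖Q₂‖ ^ 2 = 1) {E : Set ℂ}
    (hE : MeasurableSet E) (h : OnePoint ℂ ≃ₜ OnePoint ℂ)
    (hh : ∀ p : ℂ × ℂ, p ≠ 0 → h (pr p) = pr (mb a₁ a₂ (Q₁, Q₂) p)) :
    mu (s / 2) {w : ℂ | ∃ z ∈ E, h (z : OnePoint ℂ) = (w : OnePoint ℂ)} ≤
      ENNReal.ofReal ((R + 1) ^ (2 - s) * (R + 1) ^ (2 - s) * (2 * R) ^ (2 * s - 2)) *
      ∫⁻ z in E, ENNReal.ofReal (‖z - a₁‖ ^ (-s)) * ENNReal.ofReal (‖z - a₂‖ ^ (-s)) *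
        ENNReal.ofReal (‖z * Q₂ - Q₁‖ ^ (2 * s - 4)) := by
  set c := a₂ * Q₂ - Q₁ with hc
  set g := a₂ - a₁ with hg
  set m : ℂ → ℂ := fun z => (c * z + -(a₁ * c)) / (Q₂ * g * z + -(Q₁ * g)) with hm
  set A : Set ℂ := {z ∈ E | Q₂ * g * z + -(Q₁ * g) ≠ 0} with hA
  have hAm : MeasurableSet A := by
    refine hE.inter ?_
    have : IsOpen {z : ℂ | Q₂ * g * z + -(Q₁ * g) ≠ 0} :=
      isOpen_ne_fun (by fun_prop) (by fun_prop)
    exact this.measurableSet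
  have hval : ∀ z : ℂ, h (z : OnePoint ℂ) = pr (c * z + -(a₁ * c), Q₂ * g * z + -(Q₁ * g)) := by
    intro z
    have h3 := hh (z, 1) (fun h => one_ne_zero (congrArg Prod.snd h))
    have h4 : pr ((z, 1) : ℂ × ℂ) = (z : OnePoint ℂ) := by
      rw [Pool.Agent.H790R3.RB.SP.pr_ne (by simp)]
      simp
    rw [h4] at h3
    rw [h3]
    congr 1
    unfold mb cr
    refine Prod.ext ?_ ?_
    · simp only [hc]
      ring
    · simp only [hg]
      ring
  have hval2 : ∀ z ∈ A, h (z : OnePoint ℂ) = ((m z : ℂ) : OnePoint ℂ) := by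
    intro z hz
    rw [hval, Pool.Agent.H790R3.RB.SP.pr_ne hz.2]
  have hinj : InjOn m A := by
    intro x hx y hy hxy
    have h3 : h (x : OnePoint ℂ) = h (y : OnePoint ℂ) := by
      rw [hval2 x hx, hval2 y hy, hxy]
    exact OnePoint.coe_injective (h.injective h3)
  have hsub : {w : ℂ | ∃ z ∈ E, h (z : OnePoint ℂ) = (w : OnePoint ℂ)} ⊆ m '' A := by
    rintro w ⟨z, hz, hzw⟩
    by_cases h0 : Q₂ * g * z + -(Q₁ * g) = 0
    · rw [hval, Pool.Agent.H790R3.RB.SP.pr_zero h0] at hzw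
      exact absurd hzw (OnePoint.infty_ne_coe w)
    · refine ⟨z, ⟨hz, h0⟩, ?_⟩
      rw [hval2 z ⟨hz, h0⟩] at hzw
      exact OnePoint.coe_injective hzw
  refine (measure_mono hsub).trans ?_
  unfold mu
  rw [withDensity_apply', cov c (-(a₁ * c)) (Q₂ * g) (-(Q₁ * g)) hAm (fun z hz => hz.2) hinj,
    ← lintegral_const_mul' _ _ ENNReal.ofReal_ne_top]
  refine (setLIntegral_mono' hAm fun z hz => ?_).trans (lintegral_mono_set fun z hz => hz.1)
  have hden : Q₂ * g * z + -(Q₁ * g) = (z * Q₂ - Q₁) * g := by ring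
  have hz2 := hz.2
  rw [hden] at hz2
  have hw0 : z * Q₂ - Q₁ ≠ 0 := left_ne_zero_of_mul hz2
  have hg0 : g ≠ 0 := right_ne_zero_of_mul hz2
  have e1 : (c * z + -(a₁ * c)) / (Q₂ * g * z + -(Q₁ * g)) =
      (z - a₁) * c / ((z * Q₂ - Q₁) * g) := by
    rw [hden]
    congr 1
    ring
  have e2 : (c * z + -(a₁ * c)) / (Q₂ * g * z + -(Q₁ * g)) - 1 =
      (z - a₂) * (a₁ * Q₂ - Q₁) / ((z * Q₂ - Q₁) * g) := by
    rw [hden, div_sub_one hz2]
    congr 1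
    rw [hc, hg]
    ring
  have e3 : (c * -(Q₁ * g) - -(a₁ * c) * (Q₂ * g)) / (Q₂ * g * z + -(Q₁ * g)) ^ 2 =
      c * (a₁ * Q₂ - Q₁) * g / ((z * Q₂ - Q₁) * g) ^ 2 := by
    rw [hden]
    congr 1
    ring
  have hQ1 : ‖Q₁‖ ≤ 1 := by nlinarith [norm_nonneg Q₁, norm_nonneg Q₂, sq_nonneg ‖Q₂‖]
  have hQ2 : ‖Q₂‖ ≤ 1 := by nlinarith [norm_nonneg Q₁, norm_nonneg Q₂, sq_nonneg ‖Q₁‖]
  have hbd : ∀ a : ℂ, ‖a‖ ≤ R → ‖a * Q₂ - Q₁‖ ≤ R + 1 := by
    intro a ha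
    have h3 := norm_sub_le (a * Q₂) Q₁
    rw [norm_mul] at h3
    nlinarith [norm_nonneg a, norm_nonneg Q₂]
  have hgbd : ‖g‖ ≤ 2 * R := by
    have h3 := norm_sub_le a₂ a₁
    rw [hg]
    linarith
  unfold rho
  have hs2 : 2 * (s / 2) = s := by ring
  rw [e3, e2, e1, hs2, ← ENNReal.ofReal_mul (by positivity), ← ENNReal.ofReal_mul (by positivity),
    ← ENNReal.ofReal_mul (by positivity), ← ENNReal.ofReal_mul (by positivity)]
  refine ENNReal.ofReal_le_ofReal ?_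
  simp only [norm_div, norm_mul, norm_pow]
  have hu0 := norm_nonneg c
  have hv0 := norm_nonneg (a₁ * Q₂ - Q₁)
  have hu1 : ‖c‖ ≤ R + 1 := hbd a₂ ha₂
  have hv1 : ‖a₁ * Q₂ - Q₁‖ ≤ R + 1 := hbd a₁ ha₁
  have hw : 0 < ‖z * Q₂ - Q₁‖ := norm_pos_iff.mpr hw0
  have hG : 0 < ‖g‖ := norm_pos_iff.mpr hg0
  generalize ‖c‖ = u at *
  generalize ‖a₁ * Q₂ - Q₁‖ = v at *
  generalize ‖z * Q₂ - Q₁‖ = w at *
  generalize ‖g‖ = G at *
  have hA0 := norm_nonneg (z - a₁)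
  have hB0 := norm_nonneg (z - a₂)
  generalize ‖z - a₁‖ = x at *
  generalize ‖z - a₂‖ = y at *
  have f1 : (x * u / (w * G)) ^ (-s) = x ^ (-s) * u ^ (-s) * (w ^ s * G ^ s) := by
    rw [Real.div_rpow (by positivity) (by positivity), Real.mul_rpow hA0 hu0,
      Real.rpow_neg (by positivity : 0 ≤ w * G), Real.mul_rpow hw.le hG.le, div_inv_eq_mul]
  have f2 : (y * v / (w * G)) ^ (-s) = y ^ (-s) * v ^ (-s) * (w ^ s * G ^ s) := by
    rw [Real.div_rpow (by positivity) (by positivity), Real.mul_rpow hB0 hv0,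
      Real.rpow_neg (by positivity : 0 ≤ w * G), Real.mul_rpow hw.le hG.le, div_inv_eq_mul]
  have f3 : ∀ t : ℝ, 0 ≤ t → t ^ 2 * t ^ (-s) = t ^ (2 - s) := by
    intro t ht
    rcases ht.eq_or_lt with h0 | h0
    · rw [← h0, Real.zero_rpow (by linarith), Real.zero_rpow (by linarith)]
      ring
    · rw [← Real.rpow_natCast t 2, ← Real.rpow_add h0]
      congr 1
  have f4 : w ^ s * w ^ s / w ^ 4 = w ^ (2 * s - 4) := by
    rw [← Real.rpow_add hw, ← Real.rpow_natCast w 4, ← Real.rpow_sub hw]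
    congr 1
    push_cast
    ring
  have f5 : G ^ s * G ^ s / G ^ 2 = G ^ (2 * s - 2) := by
    rw [← Real.rpow_add hG, ← Real.rpow_natCast G 2, ← Real.rpow_sub hG]
    congr 1
    push_cast
    ring
  have f6 : (u * v * G / (w * G) ^ 2) ^ 2 *
      ((x * u / (w * G)) ^ (-s) * (y * v / (w * G)) ^ (-s)) =
      (u ^ (2 - s) * v ^ (2 - s) * G ^ (2 * s - 2)) * (x ^ (-s) * y ^ (-s) * w ^ (2 * s - 4)) := by
    rw [f1, f2, ← f3 u hu0, ← f3 v hv0, ← f4, ← f5]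
    field_simp
  rw [f6]
  refine mul_le_mul_of_nonneg_right ?_ (by positivity)
  have g1 : u ^ (2 - s) ≤ (R + 1) ^ (2 - s) := Real.rpow_le_rpow hu0 hu1 (by linarith)
  have g2 : v ^ (2 - s) ≤ (R + 1) ^ (2 - s) := Real.rpow_le_rpow hv0 hv1 (by linarith)
  have g3 : G ^ (2 * s - 2) ≤ (2 * R) ^ (2 * s - 2) := Real.rpow_le_rpow hG.le hgbd (by linarith)
  exact mul_le_mul (mul_le_mul g1 g2 (by positivity) (by positivity)) g3 (by positivity)
    (by positivity)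

theorem taskNA : StNA := by
  intro β q₀ b₁ b₂ hβ1 hβ2 _ _ _ ε hε
  obtain ⟨s, hs⟩ : ∃ s : ℝ, s = 2 * β := ⟨_, rfl⟩
  have hs1 : 1 < s := by linarith
  have hs2 : s < 2 := by linarith
  have hβs : β = s / 2 := by linarith
  set r := min ε 1 with hr
  have hr0 : 0 < r := lt_min hε one_pos
  have hr1 : r ≤ 1 := min_le_right _ _
  set R := ‖b₁‖ + ‖b₂‖ + 1 with hR
  have hR1 : 1 ≤ R := by
    rw [hR]
    linarith [norm_nonneg b₁, norm_nonneg b₂]
  have hin₁ : ∀ a ∈ ball b₁ r, ‖a‖ ≤ R := by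
    intro a ha
    rw [mem_ball, dist_eq_norm] at ha
    have h1 : ‖a‖ ≤ ‖a - b₁‖ + ‖b₁‖ := by simpa using norm_add_le (a - b₁) b₁
    rw [hR]
    linarith [norm_nonneg b₂]
  have hin₂ : ∀ a ∈ ball b₂ r, ‖a‖ ≤ R := by
    intro a ha
    rw [mem_ball, dist_eq_norm] at ha
    have h1 : ‖a‖ ≤ ‖a - b₂‖ + ‖b₂‖ := by simpa using norm_add_le (a - b₂) b₂
    rw [hR]
    linarith [norm_nonneg b₁]
  obtain ⟨C₁, hC₁, havg₁⟩ := avg (s := s) (by linarith) hs2 b₁ hr1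
  obtain ⟨C₂, hC₂, havg₂⟩ := avg (s := s) (by linarith) hs2 b₂ hr1
  obtain ⟨C₃, hC₃, hsing⟩ := sing hs1 hs2
  set v : ℝ := r ^ 2 * Real.pi with hv
  have hv0 : 0 < v := by positivity
  have hvol : ∀ b : ℂ, volume (ball b r) = ENNReal.ofReal v := by
    intro b
    rw [Complex.volume_ball, hv, ENNReal.ofReal_mul (by positivity), ENNReal.ofReal_pow hr0.le]
    congr 1
    rw [← NNReal.coe_real_pi, ENNReal.ofReal_coe_nnreal]
  set C₀ := (R + 1) ^ (2 - s) * (R + 1) ^ (2 - s) * (2 * R) ^ (2 * s - 2) with hC₀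
  have hC₀pos : 0 < C₀ := by positivity
  set δ := min 1 (v / 2 / (1 + R ^ 2) ^ 2) with hδ
  refine ⟨C₀ * ((2 / v) * ((2 / v) * (C₁ * C₂ * C₃))), δ, by positivity, by positivity, univ,
    univ_mem, fun q _ E hE a ha haδ hEa => ?_⟩
  have ha1 : a ≤ 1 := haδ.le.trans (min_le_left _ _)
  have ha2 : a * (1 + R ^ 2) ^ 2 ≤ v / 2 := by
    have := haδ.le.trans (min_le_right _ _)
    rwa [le_div_iff₀ (by positivity)] at this
  -- the discs meet `E` in a small set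
  have hsmall : ∀ b : ℂ, (∀ a ∈ ball b r, ‖a‖ ≤ R) →
      volume (ball b r ∩ E) ≤ ENNReal.ofReal (v / 2) := by
    intro b hb
    have h1 : volume (ball b r ∩ E) ≤ ENNReal.ofReal ((1 + R ^ 2) ^ 2) * sar E := by
      unfold sar
      rw [← lintegral_const_mul' _ _ ENNReal.ofReal_ne_top]
      have h2 : volume (ball b r ∩ E) = ∫⁻ _ in ball b r ∩ E, 1 := by
        rw [setLIntegral_one]
      rw [h2]
      refine (setLIntegral_mono' (measurableSet_ball.inter hE) fun z hz => ?_).trans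
        (lintegral_mono_set inter_subset_right)
      rw [← ENNReal.ofReal_mul (by positivity), ← ENNReal.ofReal_one]
      refine ENNReal.ofReal_le_ofReal ?_
      have h3 := hb z hz.1
      rw [mul_one_div, one_le_div (by positivity)]
      have h4 : ‖z‖ ^ 2 ≤ R ^ 2 := by
        have := norm_nonneg z
        nlinarith
      have h5 : 0 ≤ ‖z‖ ^ 2 := by positivity
      nlinarith
    refine h1.trans ?_
    refine (mul_le_mul' le_rfl hEa).trans ?_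
    rw [← ENNReal.ofReal_mul (by positivity)]
    refine ENNReal.ofReal_le_ofReal ?_
    linarith
  -- the normalised representative
  obtain ⟨hprq, hq0⟩ := Pool.Agent.H790R3.RB.SP.pr_hc q
  set n := Real.sqrt (‖(hc q).1‖ ^ 2 + ‖(hc q).2‖ ^ 2) with hn
  have hnpos : 0 < ‖(hc q).1‖ ^ 2 + ‖(hc q).2‖ ^ 2 := by
    by_cases h1 : (hc q).1 = 0
    · have h2 : (hc q).2 ≠ 0 := fun h2 => hq0 (Prod.ext h1 h2)
      have h3 := norm_pos_iff.mpr h2
      exact add_pos_of_nonneg_of_pos (sq_nonneg _) (pow_pos h3 2)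
    · have h3 := norm_pos_iff.mpr h1
      exact add_pos_of_pos_of_nonneg (pow_pos h3 2) (sq_nonneg _)
  have hn0 : 0 < n := Real.sqrt_pos.mpr hnpos
  have hn2 : n ^ 2 = ‖(hc q).1‖ ^ 2 + ‖(hc q).2‖ ^ 2 := Real.sq_sqrt hnpos.le
  set Q₁ : ℂ := ((n⁻¹ : ℝ) : ℂ) * (hc q).1 with hQ₁
  set Q₂ : ℂ := ((n⁻¹ : ℝ) : ℂ) * (hc q).2 with hQ₂
  have hQ : ‖Q₁‖ ^ 2 + ‖Q₂‖ ^ 2 = 1 := by
    rw [hQ₁, hQ₂, norm_mul, norm_mul, Complex.norm_real, Real.norm_of_nonneg (by positivity),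
      mul_pow, mul_pow, ← mul_add, ← hn2]
    field_simp
  -- the selection
  have hgm : ∀ a : ℂ, Measurable fun z : ℂ => ENNReal.ofReal (‖z - a‖ ^ (-s)) := by
    intro a
    fun_prop
  have hwm : Measurable fun z : ℂ => ENNReal.ofReal (‖z * Q₂ - Q₁‖ ^ (2 * s - 4)) := by
    fun_prop
  have hJm : Measurable fun z : ℂ => ENNReal.ofReal (C₂ * (1 + ‖z‖) ^ (-s)) := by
    fun_prop
  have hprod : Measurable (Function.uncurry fun (a z : ℂ) => ENNReal.ofReal (‖z - a‖ ^ (-s)) *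
      (ENNReal.ofReal (C₂ * (1 + ‖z‖) ^ (-s)) *
        ENNReal.ofReal (‖z * Q₂ - Q₁‖ ^ (2 * s - 4)))) := by
    unfold Function.uncurry
    fun_prop
  obtain ⟨a₁, ha₁B, ha₁E, ha₁⟩ := sel hv0 hE (hvol b₁) (hsmall b₁ hin₁)
    (fun a => ∫⁻ z in E, ENNReal.ofReal (‖z - a‖ ^ (-s)) *
      (ENNReal.ofReal (C₂ * (1 + ‖z‖) ^ (-s)) * ENNReal.ofReal (‖z * Q₂ - Q₁‖ ^ (2 * s - 4))))
    (hprod.lintegral_prod_right')
  have hprod2 : Measurable (Function.uncurry fun (a z : ℂ) => ENNReal.ofReal (‖z - a₁‖ ^ (-s)) *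
      ENNReal.ofReal (‖z - a‖ ^ (-s)) * ENNReal.ofReal (‖z * Q₂ - Q₁‖ ^ (2 * s - 4))) := by
    unfold Function.uncurry
    fun_prop
  obtain ⟨a₂, ha₂B, ha₂E, ha₂⟩ := sel hv0 hE (hvol b₂) (hsmall b₂ hin₂)
    (fun a => ∫⁻ z in E, ENNReal.ofReal (‖z - a₁‖ ^ (-s)) * ENNReal.ofReal (‖z - a‖ ^ (-s)) *
      ENNReal.ofReal (‖z * Q₂ - Q₁‖ ^ (2 * s - 4)))
    (hprod2.lintegral_prod_right')
  refine ⟨a₁, a₂, ?_, ?_, ha₁E, ha₂E, fun h Q hQ0 hQq hh => ?_⟩
  · rw [mem_ball, dist_eq_norm] at ha₁B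
    exact lt_of_lt_of_le ha₁B (min_le_left _ _)
  · rw [mem_ball, dist_eq_norm] at ha₂B
    exact lt_of_lt_of_le ha₂B (min_le_left _ _)
  have hh' : ∀ p : ℂ × ℂ, p ≠ 0 → h (pr p) = pr (mb a₁ a₂ (Q₁, Q₂) p) := by
    intro p hp
    have hne : ((Q₁, Q₂) : ℂ × ℂ) = ((n⁻¹ : ℝ) : ℂ) • hc q := by
      refine Prod.ext ?_ ?_
      · simp [hQ₁]
      · simp [hQ₂]
    have hcr : cr Q (hc q) = 0 := by
      rw [← Pool.Agent.H790R3.RB.SP.pr_eq_iff hQ0 hq0, hQq, hprq]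
    obtain ⟨t, ht, hqt⟩ := exists_smul hQ0 hq0 hcr
    have hn' : ((n⁻¹ : ℝ) : ℂ) ≠ 0 := by
      exact_mod_cast (inv_pos.mpr hn0).ne'
    rw [hh p hp, hne, hqt, mb_smul, mb_smul, Pool.Agent.H790R3.RB.TOP.pr_smul hn',
      Pool.Agent.H790R3.RB.TOP.pr_smul ht]
  have harea := area hs1 hs2 hR1 (hin₁ a₁ ha₁B) (hin₂ a₂ ha₂B) hQ hE h hh'
  rw [← hβs, ← hC₀] at harea
  refine harea.trans ?_
  -- Tonelli
  have T2 : ∫⁻ a in ball b₂ r, ∫⁻ z in E, ENNReal.ofReal (‖z - a₁‖ ^ (-s)) *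
      ENNReal.ofReal (‖z - a‖ ^ (-s)) * ENNReal.ofReal (‖z * Q₂ - Q₁‖ ^ (2 * s - 4)) ≤
      ∫⁻ z in E, ENNReal.ofReal (‖z - a₁‖ ^ (-s)) *
      (ENNReal.ofReal (C₂ * (1 + ‖z‖) ^ (-s)) *
        ENNReal.ofReal (‖z * Q₂ - Q₁‖ ^ (2 * s - 4))) := by
    rw [lintegral_lintegral_swap hprod2.aemeasurable]
    refine lintegral_mono fun z => ?_
    have h1 : ∀ a : ℂ, ENNReal.ofReal (‖z - a₁‖ ^ (-s)) *
        ENNReal.ofReal (‖z - a‖ ^ (-s)) * ENNReal.ofReal (‖z * Q₂ - Q₁‖ ^ (2 * s - 4)) =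
        ENNReal.ofReal (‖z - a₁‖ ^ (-s)) * ENNReal.ofReal (‖z * Q₂ - Q₁‖ ^ (2 * s - 4)) *
          ENNReal.ofReal (‖z - a‖ ^ (-s)) := fun a => by ring
    simp only [h1]
    rw [lintegral_const_mul' _ _ (ENNReal.mul_ne_top ENNReal.ofReal_ne_top ENNReal.ofReal_ne_top)]
    refine (mul_le_mul' le_rfl (havg₂ z)).trans (le_of_eq ?_)
    ring
  have T1 : ∫⁻ a in ball b₁ r, ∫⁻ z in E, ENNReal.ofReal (‖z - a‖ ^ (-s)) *
      (ENNReal.ofReal (C₂ * (1 + ‖z‖) ^ (-s)) *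
        ENNReal.ofReal (‖z * Q₂ - Q₁‖ ^ (2 * s - 4))) ≤
      ENNReal.ofReal (C₁ * C₂ * C₃ * a ^ (s - 1)) := by
    rw [lintegral_lintegral_swap hprod.aemeasurable]
    have h2 : ∫⁻ z in E, ∫⁻ a in ball b₁ r, ENNReal.ofReal (‖z - a‖ ^ (-s)) *
        (ENNReal.ofReal (C₂ * (1 + ‖z‖) ^ (-s)) *
        ENNReal.ofReal (‖z * Q₂ - Q₁‖ ^ (2 * s - 4))) ≤ ∫⁻ z in E, ENNReal.ofReal (C₁ * C₂) *
        ENNReal.ofReal ((1 + ‖z‖) ^ (-(2 * s)) * ‖z * Q₂ - Q₁‖ ^ (2 * s - 4)) := by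
      refine lintegral_mono fun z => ?_
      rw [lintegral_mul_const' _ _ (ENNReal.mul_ne_top ENNReal.ofReal_ne_top ENNReal.ofReal_ne_top)]
      refine (mul_le_mul' (havg₁ z) le_rfl).trans (le_of_eq ?_)
      rw [← ENNReal.ofReal_mul (by positivity), ← ENNReal.ofReal_mul (by positivity),
        ← ENNReal.ofReal_mul (by positivity)]
      congr 1
      have : (1 + ‖z‖) ^ (-(2 * s)) = (1 + ‖z‖) ^ (-s) * (1 + ‖z‖) ^ (-s) := by
        rw [← Real.rpow_add (by positivity)]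
        congr 1
        ring
      rw [this]
      ring
    refine h2.trans ?_
    rw [lintegral_const_mul' _ _ ENNReal.ofReal_ne_top]
    refine (mul_le_mul' le_rfl (hsing Q₁ Q₂ hQ E hE a ha ha1 hEa)).trans ?_
    rw [← ENNReal.ofReal_mul (by positivity)]
    refine ENNReal.ofReal_le_ofReal (le_of_eq ?_)
    ring
  refine (mul_le_mul' le_rfl (ha₂.trans (mul_le_mul' le_rfl (T2.trans (ha₁.trans
    (mul_le_mul' le_rfl T1)))))).trans ?_
  rw [← ENNReal.ofReal_mul (by positivity), ← ENNReal.ofReal_mul (by positivity),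
    ← ENNReal.ofReal_mul (by positivity)]
  refine ENNReal.ofReal_le_ofReal (le_of_eq ?_)
  rw [← hs]
  ring

end W54.RE
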